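import Pool.Agent.H94.Cyc.Lim

set_option autoImplicit false

namespace Pool.Agent.Results.MP_d6e065_nt.Disproof

open Filter Polynomial

/-- Let `m_k` be the product of the `k` smallest odd primes and `N_{m_k}` the number of real roots,
with multiplicity, of the derivative of the `m_k`-th cyclotomic polynomial. Then
`N_{m_k} - (2k - 1)` tends to infinity; in particular `N_{m_k} = 2k - 1` fails for some `k ≥ 1`
(indeed for all large `k`). -/
theorem result :
    (∀ B : ℕ, ∀ᶠ k : ℕ in atTop, 2 * k - 1 + B ≤ Multiset.card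
      (derivative (cyclotomic (∏ i ∈ Finset.range k, Nat.nth Nat.Prime (i + 1)) ℝ)).roots) ∧
    ¬ ∀ k : ℕ, 1 ≤ k → Multiset.card
      (derivative (cyclotomic (∏ i ∈ Finset.range k, Nat.nth Nat.Prime (i + 1)) ℝ)).roots =
        2 * k - 1 := by
  have h1 : ∀ B : ℕ, ∀ᶠ k : ℕ in atTop, 2 * k - 1 + B ≤ Multiset.card
      (derivative (cyclotomic (∏ i ∈ Finset.range k, Nat.nth Nat.Prime (i + 1)) ℝ)).roots :=
    fun B => Pool.Agent.H94.Cyc.main B
  refine ⟨h1, fun h => ?_⟩
  obtain ⟨k, hk1, hk2⟩ := ((h1 1).and (eventually_ge_atTop 1)).exists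
  have := h k hk2
  omega

end Pool.Agent.Results.MP_d6e065_nt.Disproof
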