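import Pool.Agent.H41.ZcFinal

/-!
# MP_d6e065_nt: a general lower bound

If `n` is a product of `k ≥ 1` distinct odd primes, then `Φ_n'` has at least `2k-1` real roots.
-/

namespace Pool.Agent.Results.MP_d6e065_nt.LowerBound

/-- The number of real roots of `Φ_n'`, counted with multiplicity. -/
noncomputable def numRealCrit (n : ℕ) : ℕ :=
  Multiset.card (Polynomial.derivative (Polynomial.cyclotomic n ℝ)).roots

theorem result (S : Finset ℕ) (hne : S.Nonempty) (hp : ∀ p ∈ S, p.Prime ∧ Odd p) :
    2 * S.card - 1 ≤ numRealCrit (∏ p ∈ S, p) :=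
  ZC.lower S hne ⟨fun p h => (hp p h).1, fun p h => (hp p h).2⟩

end Pool.Agent.Results.MP_d6e065_nt.LowerBound
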